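import Pool.Agent.N585.FP.Defs

/-!
# A vertex with three twins can be added to a 2-layer fan-planar drawing
-/

set_option autoImplicit false

namespace Pool.Agent.N457.FP

open Pool.Agent.N585.FP

theorem flip {G : SimpleGraph ℕ} {U : Finset ℕ} {side : ℕ → Bool} {p : ℕ → ℕ}
    (h : Draw G U side p) : Draw G U (fun x => !side x) p := by
  have hE : ∀ a b, Ed G U (fun x => !side x) a b → Ed G U side b a := by
    rintro a b ⟨h1, h2, h3, h4, h5⟩
    simp only [Bool.not_eq_true', Bool.not_eq_false'] at h3 h4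
    exact ⟨h2, h1, h4, h3, h5.symm⟩
  have hC : ∀ a b a' b', Cross p a b a' b' → Cross p b a b' a' := by
    intro a b a' b' hc
    unfold Cross at hc ⊢
    omega
  refine ⟨h.inj, ?_, ?_⟩
  · intro x hx y hy hxy he
    exact h.bip x hx y hy hxy (by simpa using he)
  · intro a b a₁ b₁ a₂ b₂ h1 h2 h3 h4 h5
    exact (h.fan b a b₁ a₁ b₂ a₂ (hE _ _ h1) (hE _ _ h2) (hE _ _ h3) (hC _ _ _ _ h4)
      (hC _ _ _ _ h5)).symm

theorem core {G : SimpleGraph ℕ} {U : Finset ℕ} {side : ℕ → Bool} {p : ℕ → ℕ}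
    (h : Draw G U side p) {v d1 d2 d3 : ℕ} (hv : v ∉ U) (h1 : d1 ∈ U) (h2 : d2 ∈ U)
    (h3 : d3 ∈ U) (s1 : side d1 = true) (s2 : side d2 = true) (s3 : side d3 = true)
    (l1 : p d1 < p d2) (l2 : p d2 < p d3) (t1 : ∀ z ∈ U, (G.Adj v z ↔ G.Adj d1 z))
    (t2 : ∀ z ∈ U, (G.Adj v z ↔ G.Adj d2 z)) (t3 : ∀ z ∈ U, (G.Adj v z ↔ G.Adj d3 z)) :
    Drawable G (insert v U) := by
  obtain ⟨p', hp'⟩ : ∃ p' : ℕ → ℕ, p' = fun x => if x = v then 2 * p d2 + 1 else 2 * p x :=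
    ⟨_, rfl⟩
  obtain ⟨s', hs'⟩ : ∃ s' : ℕ → Bool, s' = fun x => if x = v then true else side x := ⟨_, rfl⟩
  have pv : p' v = 2 * p d2 + 1 := by rw [hp']; simp
  have pU : ∀ x, x ≠ v → p' x = 2 * p x := by
    intro x hx
    rw [hp']
    simp [hx]
  have sv : s' v = true := by rw [hs']; simp
  have sU : ∀ x, x ≠ v → s' x = side x := by
    intro x hx
    rw [hs']
    simp [hx]
  have hne : ∀ x ∈ U, x ≠ v := by
    rintro x hx rfl
    exact hv hx
  have side_nb : ∀ z ∈ U, G.Adj v z → side z = false := by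
    intro z hz hvz
    have := h.bip d2 h2 z hz ((t2 z hz).1 hvz)
    rw [s2] at this
    simpa using this.symm
  -- twins
  have tw : ∀ b, Ed G U side d2 b → Ed G U side d1 b ∧ Ed G U side d3 b := by
    rintro b ⟨-, hb, -, hsb, hab⟩
    have := (t2 b hb).2 hab
    exact ⟨⟨h1, hb, s1, hsb, (t1 b hb).1 this⟩, ⟨h3, hb, s3, hsb, (t3 b hb).1 this⟩⟩
  have hA : ∀ x y z, Ed G U side d2 x → Ed G U side d2 y → Ed G U side d2 z →
      p x < p y → p y < p z → False := by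
    intro x y z hx hy hz hxy hyz
    rcases h.fan d2 y d1 z d3 x hy (tw z hz).1 (tw x hx).2 (Or.inr ⟨l1, hyz⟩)
      (Or.inl ⟨l2, hxy⟩) with e | e
    · rw [e] at l1
      omega
    · rw [e] at hyz
      omega
  have hB : ∀ x y a b, Ed G U side d2 x → Ed G U side d2 y → p x < p y → Ed G U side a b →
      Cross p d2 x a b → b = y := by
    intro x y a b hx hy hxy hab hc
    rcases h.fan d2 x a b d1 y hx hab (tw y hy).1 hc (Or.inr ⟨l1, hxy⟩) with e | e
    · subst e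
      have hb : Ed G U side d2 b :=
        ⟨h2, hab.2.1, s2, hab.2.2.2.1, (t2 b hab.2.1).1 ((t1 b hab.2.1).2 hab.2.2.2.2)⟩
      have hxb : p x < p b := by
        unfold Cross at hc
        omega
      by_contra hby
      have hpby : p b ≠ p y := fun hh => hby (h.inj b hab.2.1 y hy.2.1 hh)
      rcases lt_or_gt_of_ne hpby with hh | hh
      · exact hA x b y hx hb hy hxb hh
      · exact hA x y b hx hy hb hxy hh
    · exact e
  have hB' : ∀ x y a b, Ed G U side d2 x → Ed G U side d2 y → p x < p y → Ed G U side a b →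
      Cross p d2 y a b → b = x := by
    intro x y a b hx hy hxy hab hc
    rcases h.fan d2 y a b d3 x hy hab (tw x hx).2 hc (Or.inl ⟨l2, hxy⟩) with e | e
    · subst e
      have hb : Ed G U side d2 b :=
        ⟨h2, hab.2.1, s2, hab.2.2.2.1, (t2 b hab.2.1).1 ((t3 b hab.2.1).2 hab.2.2.2.2)⟩
      have hyb : p b < p y := by
        unfold Cross at hc
        omega
      by_contra hbx
      have hpbx : p b ≠ p x := fun hh => hbx (h.inj b hab.2.1 x hx.2.1 hh)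
      rcases lt_or_gt_of_ne hpbx with hh | hh
      · exact hA b x y hb hx hy hh hxy
      · exact hA x b y hx hb hy hh hyb
    · exact e
  -- the edges of the new drawing
  have hE : ∀ a b, Ed G (insert v U) s' a b → b ≠ v ∧
      ((a = v ∧ Ed G U side d2 b) ∨ (a ≠ v ∧ Ed G U side a b)) := by
    rintro a b ⟨ha, hb, hsa, hsb, hab⟩
    have hbv : b ≠ v := by
      rintro rfl
      rw [sv] at hsb
      cases hsb
    have hbU : b ∈ U := (Finset.mem_insert.1 hb).resolve_left hbv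
    rw [sU b hbv] at hsb
    refine ⟨hbv, ?_⟩
    by_cases hav : a = v
    · left
      subst hav
      exact ⟨rfl, h2, hbU, s2, hsb, (t2 b hbU).1 hab⟩
    · right
      rw [sU a hav] at hsa
      exact ⟨hav, (Finset.mem_insert.1 ha).resolve_left hav, hbU, hsa, hsb, hab⟩
  -- crossings
  have pne : ∀ x ∈ U, x ≠ d2 → p x ≠ p d2 := fun x hx hxd hh => hxd (h.inj x hx d2 h2 hh)
  have hC0 : ∀ a b a₁ b₁, a ≠ v → b ≠ v → a₁ ≠ v → b₁ ≠ v → Cross p' a b a₁ b₁ →
      Cross p a b a₁ b₁ := by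
    intro a b a₁ b₁ ha hb ha1 hb1 hc
    unfold Cross at hc ⊢
    rw [pU a ha, pU b hb, pU a₁ ha1, pU b₁ hb1] at hc
    omega
  have hC1 : ∀ b a₁ b₁, b ≠ v → a₁ ∈ U → a₁ ≠ d2 → b₁ ≠ v → Cross p' v b a₁ b₁ →
      Cross p d2 b a₁ b₁ := by
    intro b a₁ b₁ hb ha1 hd hb1 hc
    have := pne a₁ ha1 hd
    unfold Cross at hc ⊢
    rw [pv, pU b hb, pU a₁ (hne _ ha1), pU b₁ hb1] at hc
    omega
  have hC2 : ∀ b b₁, b ≠ v → b₁ ≠ v → Cross p' v b d2 b₁ → p b < p b₁ := by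
    intro b b₁ hb hb1 hc
    unfold Cross at hc
    rw [pv, pU b hb, pU d2 (hne _ h2), pU b₁ hb1] at hc
    omega
  have hCs : ∀ a b a₁ b₁, Cross p' a b a₁ b₁ → Cross p' a₁ b₁ a b := by
    intro a b a₁ b₁ hc
    unfold Cross at hc ⊢
    omega
  have hCs0 : ∀ a b a₁ b₁, Cross p a b a₁ b₁ → Cross p a₁ b₁ a b := by
    intro a b a₁ b₁ hc
    unfold Cross at hc ⊢
    omega
  -- the mixed cases
  have hM1 : ∀ b a₂ b₁ b₂, b ≠ v → b₁ ≠ v → b₂ ≠ v → Ed G U side d2 b → Ed G U side d2 b₁ →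
      a₂ ≠ d2 → Ed G U side a₂ b₂ → Cross p' v b d2 b₁ → Cross p' v b a₂ b₂ → b₂ = b₁ := by
    intro b a₂ b₁ b₂ hb hb1 hb2 hd hd1 ha2 he2 hc1 hc2
    exact hB b b₁ a₂ b₂ hd hd1 (hC2 b b₁ hb hb1 hc1) he2 (hC1 b a₂ b₂ hb he2.1 ha2 hb2 hc2)
  have hM2 : ∀ a b a₂ b₁ b₂, a ≠ v → b ≠ v → b₁ ≠ v → b₂ ≠ v → a₂ ≠ v → Ed G U side a b →
      Ed G U side d2 b₁ → Ed G U side a₂ b₂ → Cross p' a b v b₁ → Cross p' a b a₂ b₂ →
      b₁ = b₂ := by
    intro a b a₂ b₁ b₂ ha hb hb1 hb2 ha2 he he1 he2 hc1 hc2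
    have hc2' := hC0 a b a₂ b₂ ha hb ha2 hb2 hc2
    by_cases had : a = d2
    · subst had
      have := hC2 b₁ b hb1 hb (hCs _ _ _ _ hc1)
      exact (hB' b₁ b a₂ b₂ he1 he this he2 hc2').symm
    · have hc1' : Cross p a b d2 b₁ := hCs0 _ _ _ _ (hC1 b₁ a b hb1 he.1 had hb (hCs _ _ _ _ hc1))
      rcases h.fan a b d2 b₁ a₂ b₂ he he1 he2 hc1' hc2' with e | e
      · subst e
        by_contra hbb
        have hpbb : p b₁ ≠ p b₂ := fun hh => hbb (h.inj b₁ he1.2.1 b₂ he2.2.1 hh)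
        rcases lt_or_gt_of_ne hpbb with hh | hh
        · have e2 := hB b₁ b₂ a b he1 he2 hh he (hCs0 _ _ _ _ hc1')
          rw [e2] at hc2'
          unfold Cross at hc2'
          omega
        · have e2 := hB b₂ b₁ a b he2 he1 hh he (hCs0 _ _ _ _ hc2')
          rw [e2] at hc1'
          unfold Cross at hc1'
          omega
      · exact e
  refine ⟨s', p', ?_, ?_, ?_⟩
  · intro x hx y hy hxy
    by_cases hxv : x = v
    · by_cases hyv : y = v
      · rw [hxv, hyv]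
      · rw [hxv, pv, pU y hyv] at hxy
        omega
    · by_cases hyv : y = v
      · rw [hyv, pv, pU x hxv] at hxy
        omega
      · rw [pU x hxv, pU y hyv] at hxy
        exact h.inj x ((Finset.mem_insert.1 hx).resolve_left hxv) y
          ((Finset.mem_insert.1 hy).resolve_left hyv) (by omega)
  · intro x hx y hy hxy
    by_cases hxv : x = v
    · have hyv : y ≠ v := by
        rintro rfl
        exact hxy.ne hxv
      rw [hxv] at hxy
      rw [hxv, sv, sU y hyv, side_nb y ((Finset.mem_insert.1 hy).resolve_left hyv) hxy]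
      simp
    · by_cases hyv : y = v
      · rw [hyv] at hxy
        rw [hyv, sv, sU x hxv, side_nb x ((Finset.mem_insert.1 hx).resolve_left hxv) hxy.symm]
        simp
      · rw [sU x hxv, sU y hyv]
        exact h.bip x ((Finset.mem_insert.1 hx).resolve_left hxv) y
          ((Finset.mem_insert.1 hy).resolve_left hyv) hxy
  · intro a b a₁ b₁ a₂ b₂ g g1 g2 c1 c2
    replace g := hE a b g
    replace g1 := hE a₁ b₁ g1
    replace g2 := hE a₂ b₂ g2
    obtain ⟨hb, g⟩ := g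
    obtain ⟨hb1, g1⟩ := g1
    obtain ⟨hb2, g2⟩ := g2
    rcases g1 with ⟨rfl, g1⟩ | ⟨ha1, g1⟩
    · rcases g2 with ⟨rfl, g2⟩ | ⟨ha2, g2⟩
      · exact Or.inl rfl
      · rcases g with ⟨rfl, g⟩ | ⟨ha, g⟩
        · exfalso
          unfold Cross at c1
          omega
        · exact Or.inr (hM2 a b a₂ b₁ b₂ ha hb hb1 hb2 ha2 g g1 g2 c1 c2)
    · rcases g2 with ⟨rfl, g2⟩ | ⟨ha2, g2⟩
      · rcases g with ⟨rfl, g⟩ | ⟨ha, g⟩
        · exfalso
          unfold Cross at c2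
          omega
        · exact Or.inr (hM2 a b a₁ b₂ b₁ ha hb hb2 hb1 ha1 g g2 g1 c2 c1).symm
      · rcases g with ⟨rfl, g⟩ | ⟨ha, g⟩
        · by_cases e1 : a₁ = d2
          · by_cases e2 : a₂ = d2
            · exact Or.inl (e1.trans e2.symm)
            · subst e1
              exact Or.inr (hM1 b a₂ b₁ b₂ hb hb1 hb2 g g1 e2 g2 c1 c2).symm
          · by_cases e2 : a₂ = d2
            · subst e2
              exact Or.inr (hM1 b a₁ b₂ b₁ hb hb2 hb1 g g2 e1 g1 c2 c1)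
            · exact h.fan d2 b a₁ b₁ a₂ b₂ g g1 g2 (hC1 b a₁ b₁ hb g1.1 e1 hb1 c1)
                (hC1 b a₂ b₂ hb g2.1 e2 hb2 c2)
        · exact h.fan a b a₁ b₁ a₂ b₂ g g1 g2 (hC0 a b a₁ b₁ ha hb ha1 hb1 c1)
            (hC0 a b a₂ b₂ ha hb ha2 hb2 c2)

theorem sorted {G : SimpleGraph ℕ} {U : Finset ℕ} {side : ℕ → Bool} {p : ℕ → ℕ}
    (h : Draw G U side p) {v d1 d2 d3 : ℕ} (hv : v ∉ U) (h1 : d1 ∈ U) (h2 : d2 ∈ U)
    (h3 : d3 ∈ U) (h12 : d1 ≠ d2) (h13 : d1 ≠ d3) (h23 : d2 ≠ d3)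
    (s1 : side d1 = true) (s2 : side d2 = true) (s3 : side d3 = true)
    (t1 : ∀ z ∈ U, (G.Adj v z ↔ G.Adj d1 z))
    (t2 : ∀ z ∈ U, (G.Adj v z ↔ G.Adj d2 z)) (t3 : ∀ z ∈ U, (G.Adj v z ↔ G.Adj d3 z)) :
    Drawable G (insert v U) := by
  have n12 : p d1 ≠ p d2 := fun hh => h12 (h.inj _ h1 _ h2 hh)
  have n13 : p d1 ≠ p d3 := fun hh => h13 (h.inj _ h1 _ h3 hh)
  have n23 : p d2 ≠ p d3 := fun hh => h23 (h.inj _ h2 _ h3 hh)
  rcases lt_or_gt_of_ne n12 with a | a <;> rcases lt_or_gt_of_ne n13 with b | b <;>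
    rcases lt_or_gt_of_ne n23 with c | c
  · exact core h hv h1 h2 h3 s1 s2 s3 a c t1 t2 t3
  · exact core h hv h1 h3 h2 s1 s3 s2 b c t1 t3 t2
  · omega
  · exact core h hv h3 h1 h2 s3 s1 s2 b a t3 t1 t2
  · exact core h hv h2 h1 h3 s2 s1 s3 a b t2 t1 t3
  · omega
  · exact core h hv h2 h3 h1 s2 s3 s1 c b t2 t3 t1
  · exact core h hv h3 h2 h1 s3 s2 s1 c a t3 t2 t1

theorem stmTwin : StmTwin := by
  intro G U v d1 d2 d3 hv h1 h2 h3 h12 h13 h23 t1 t2 t3 ⟨side, p, h⟩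
  have t1' : ∀ z ∈ U, (G.Adj v z ↔ G.Adj d1 z) := fun z hz => t1 z (Finset.mem_insert_of_mem hz)
  have t2' : ∀ z ∈ U, (G.Adj v z ↔ G.Adj d2 z) := fun z hz => t2 z (Finset.mem_insert_of_mem hz)
  have t3' : ∀ z ∈ U, (G.Adj v z ↔ G.Adj d3 z) := fun z hz => t3 z (Finset.mem_insert_of_mem hz)
  by_cases hn : ∃ b ∈ U, G.Adj v b
  · obtain ⟨b, hb, hvb⟩ := hn
    have k1 := h.bip d1 h1 b hb ((t1' b hb).1 hvb)
    have k2 := h.bip d2 h2 b hb ((t2' b hb).1 hvb)
    have k3 := h.bip d3 h3 b hb ((t3' b hb).1 hvb)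
    cases hsb : side b
    · rw [hsb] at k1 k2 k3
      simp only [ne_eq, Bool.not_eq_false] at k1 k2 k3
      exact sorted h hv h1 h2 h3 h12 h13 h23 k1 k2 k3 t1' t2' t3'
    · rw [hsb] at k1 k2 k3
      simp only [ne_eq, Bool.not_eq_true] at k1 k2 k3
      exact sorted (flip h) hv h1 h2 h3 h12 h13 h23 (by simp [k1]) (by simp [k2]) (by simp [k3])
        t1' t2' t3'
  · push Not at hn
    have hU : ∀ x ∈ insert v U, ∀ y ∈ insert v U, G.Adj x y → x ∈ U ∧ y ∈ U ∧ x ≠ v ∧ y ≠ v := by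
      intro x hx y hy hxy
      rw [Finset.mem_insert] at hx hy
      rcases hx with rfl | hx
      · rcases hy with rfl | hy
        · exact absurd hxy (G.irrefl)
        · exact absurd hxy (hn y hy)
      · rcases hy with rfl | hy
        · exact absurd hxy.symm (hn x hx)
        · refine ⟨hx, hy, ?_, ?_⟩
          · rintro rfl
            exact hv hx
          · rintro rfl
            exact hv hy
    obtain ⟨p', hp'⟩ : ∃ p' : ℕ → ℕ, p' = fun x => if x = v then 0 else p x + 1 := ⟨_, rfl⟩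
    have pv : p' v = 0 := by rw [hp']; simp
    have pU : ∀ x, x ≠ v → p' x = p x + 1 := by
      intro x hx
      rw [hp']
      simp [hx]
    have hE : ∀ a b, Ed G (insert v U) side a b → Ed G U side a b ∧ a ≠ v ∧ b ≠ v := by
      rintro a b ⟨ha, hb, hsa, hsb, hab⟩
      obtain ⟨k1, k2, k3, k4⟩ := hU a ha b hb hab
      exact ⟨⟨k1, k2, hsa, hsb, hab⟩, k3, k4⟩
    refine ⟨side, p', ?_, ?_, ?_⟩
    · intro x hx y hy hxy
      by_cases hxv : x = v
      · by_cases hyv : y = v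
        · rw [hxv, hyv]
        · rw [hxv, pv, pU y hyv] at hxy
          omega
      · by_cases hyv : y = v
        · rw [hyv, pv, pU x hxv] at hxy
          omega
        · rw [pU x hxv, pU y hyv] at hxy
          exact h.inj x ((Finset.mem_insert.1 hx).resolve_left hxv) y
            ((Finset.mem_insert.1 hy).resolve_left hyv) (by omega)
    · intro x hx y hy hxy
      obtain ⟨k1, k2, -⟩ := hU x hx y hy hxy
      exact h.bip x k1 y k2 hxy
    · intro a b a₁ b₁ a₂ b₂ g g1 g2 c1 c2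
      obtain ⟨g, ha, hb⟩ := hE a b g
      obtain ⟨g1, ha1, hb1⟩ := hE a₁ b₁ g1
      obtain ⟨g2, ha2, hb2⟩ := hE a₂ b₂ g2
      refine h.fan a b a₁ b₁ a₂ b₂ g g1 g2 ?_ ?_
      · unfold Cross at c1 ⊢
        rw [pU a ha, pU b hb, pU a₁ ha1, pU b₁ hb1] at c1
        omega
      · unfold Cross at c2 ⊢
        rw [pU a ha, pU b hb, pU a₂ ha2, pU b₂ hb2] at c2
        omega

end Pool.Agent.N457.FP
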